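import Pool.Agent.Helper88.QT.St1
import Pool.Agent.Helper85.QT.St1

/-!
# Project QT (stage 2 of QD, MP_d112a4_gt), module XPT: cylindrical coordinates
-/

set_option autoImplicit false

open MeasureTheory Matrix Set Topology
open scoped ENNReal ComplexConjugate

namespace Pool.Agent.Helper99.QT

open Pool.Agent.Helper88.QT Pool.Agent.Helper85.QT Pool.Agent.Helper86.QA

private theorem XPT_NN_pos {x : Pt} (hx : x ∈ up) : 0 < NN x := by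
  have h : 0 < x.2 := hx
  unfold NN
  positivity

private theorem XPT_TTn (lam : ℂ) (hl : lam ≠ 0) (x : Pt) :
    TT lam x * ‖lam‖ = x.2 / Real.sqrt (NN x) := by
  have h : ‖lam‖ ≠ 0 := norm_ne_zero_iff.2 hl
  unfold TT
  rw [div_mul_eq_mul_div, mul_comm x.2, mul_div_mul_left _ _ h]

private theorem XPT_NNxp (lam : ℂ) (T : ℝ) (ξ : ℂ) (hT : 0 < T) (h1 : T * ‖lam‖ ≤ 1) :
    NN (xp lam T ξ) = ‖ξ‖ ^ 2 := by
  have h0 : 0 ≤ T * ‖lam‖ := by positivity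
  have h2 : 0 ≤ 1 - (T * ‖lam‖) ^ 2 := by nlinarith
  have hs := Real.sq_sqrt h2
  unfold NN xp
  simp only []
  rw [norm_mul, Complex.norm_real, Real.norm_eq_abs, abs_of_nonneg (Real.sqrt_nonneg _), mul_pow,
    hs]
  ring

private theorem XPT_1 (lam : ℂ) (hl : lam ≠ 0) (T : ℝ) (ξ : ℂ) (hT : 0 < T)
    (h1 : T * ‖lam‖ ≤ 1) (hξ : ξ ≠ 0) : xp lam T ξ ∈ up ∧ TT lam (xp lam T ξ) = T ∧
    (T * ‖lam‖ < 1 → rd (xp lam T ξ) = ξ ∧ (xp lam T ξ).1 ≠ 0) := by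
  have hln : 0 < ‖lam‖ := norm_pos_iff.2 hl
  have hxn : 0 < ‖ξ‖ := norm_pos_iff.2 hξ
  have hN := XPT_NNxp lam T ξ hT h1
  have hsN : Real.sqrt (NN (xp lam T ξ)) = ‖ξ‖ := by
    rw [hN, Real.sqrt_sq (norm_nonneg ξ)]
  refine ⟨?_, ?_, ?_⟩
  · show 0 < ‖ξ‖ * (T * ‖lam‖)
    positivity
  · unfold TT
    rw [hsN]
    show ‖ξ‖ * (T * ‖lam‖) / (‖lam‖ * ‖ξ‖) = T
    field_simp
  · intro h2
    have h0 : 0 ≤ T * ‖lam‖ := by positivity
    have h3 : 0 < 1 - (T * ‖lam‖) ^ 2 := by nlinarith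
    have hs := Real.sqrt_pos.2 h3
    have hsC : ((Real.sqrt (1 - (T * ‖lam‖) ^ 2) : ℝ) : ℂ) ≠ 0 := by exact_mod_cast hs.ne'
    have hxC : ((‖ξ‖ : ℝ) : ℂ) ≠ 0 := by exact_mod_cast hxn.ne'
    constructor
    · unfold rd
      rw [hsN]
      have e : ‖(xp lam T ξ).1‖ = ‖ξ‖ * Real.sqrt (1 - (T * ‖lam‖) ^ 2) := by
        show ‖ξ * ((Real.sqrt (1 - (T * ‖lam‖) ^ 2) : ℝ) : ℂ)‖ = _
        rw [norm_mul, Complex.norm_real, Real.norm_eq_abs, abs_of_pos hs]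
      rw [e]
      show ξ * ((Real.sqrt (1 - (T * ‖lam‖) ^ 2) : ℝ) : ℂ) * _ = ξ
      rw [Complex.ofReal_div, Complex.ofReal_mul]
      generalize ((Real.sqrt (1 - (T * ‖lam‖) ^ 2) : ℝ) : ℂ) = s at *
      generalize ((‖ξ‖ : ℝ) : ℂ) = n at *
      field_simp
    · exact mul_ne_zero hξ hsC

private theorem XPT_2 (lam : ℂ) (hl : lam ≠ 0) (x : Pt) (hx : x ∈ up) :
    0 < TT lam x ∧ TT lam x * ‖lam‖ ≤ 1 ∧ 1 ≤ cR x ∧ cR x * (‖lam‖ * TT lam x) = 1 ∧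
    (TT lam x * ‖lam‖ < 1 → x.1 ≠ 0) := by
  have ht : 0 < x.2 := hx
  have hln : 0 < ‖lam‖ := norm_pos_iff.2 hl
  have hN := XPT_NN_pos hx
  have hsN := Real.sqrt_pos.2 hN
  have hle : x.2 ≤ Real.sqrt (NN x) := by
    apply Real.le_sqrt_of_sq_le
    unfold NN
    nlinarith [sq_nonneg ‖x.1‖]
  have hT := XPT_TTn lam hl x
  refine ⟨?_, ?_, ?_, ?_, ?_⟩
  · unfold TT
    positivity
  · rw [hT, div_le_one hsN]
    exact hle
  · unfold cR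
    rw [le_div_iff₀ ht, one_mul]
    exact hle
  · rw [mul_comm ‖lam‖, hT]
    unfold cR
    field_simp
  · intro h1 h0
    rw [hT] at h1
    have e : Real.sqrt (NN x) = x.2 := by
      unfold NN
      rw [h0, norm_zero]
      norm_num
      exact Real.sqrt_sq ht.le
    rw [e, div_self ht.ne'] at h1
    exact lt_irrefl _ h1

private theorem XPT_rdn (x : Pt) (h0 : x.1 ≠ 0) : ‖rd x‖ = Real.sqrt (NN x) := by
  have h : 0 < ‖x.1‖ := norm_pos_iff.2 h0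
  unfold rd
  rw [norm_mul, Complex.norm_real, Real.norm_eq_abs, abs_of_nonneg (by positivity)]
  field_simp

private theorem XPT_3 (lam : ℂ) (hl : lam ≠ 0) (x : Pt) (hx : x ∈ up) (h0 : x.1 ≠ 0) :
    rd x ≠ 0 ∧ xp lam (TT lam x) (rd x) = x := by
  have ht : 0 < x.2 := hx
  have hN := XPT_NN_pos hx
  have hsN := Real.sqrt_pos.2 hN
  have hn := XPT_rdn x h0
  have h1 : 0 < ‖x.1‖ := norm_pos_iff.2 h0
  refine ⟨norm_pos_iff.1 (by rw [hn]; exact hsN), ?_⟩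
  have hT := XPT_TTn lam hl x
  have hs : Real.sqrt (1 - (x.2 / Real.sqrt (NN x)) ^ 2) = ‖x.1‖ / Real.sqrt (NN x) := by
    have e : 1 - (x.2 / Real.sqrt (NN x)) ^ 2 = (‖x.1‖ / Real.sqrt (NN x)) ^ 2 := by
      rw [div_pow, div_pow, Real.sq_sqrt hN.le]
      field_simp
      unfold NN
      ring
    rw [e, Real.sqrt_sq (by positivity)]
  unfold xp
  rw [hT, hn, hs]
  have hC1 : ((‖x.1‖ : ℝ) : ℂ) ≠ 0 := by exact_mod_cast h1.ne'
  have hC2 : ((Real.sqrt (NN x) : ℝ) : ℂ) ≠ 0 := by exact_mod_cast hsN.ne'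
  apply Prod.ext
  · show rd x * _ = x.1
    unfold rd
    push_cast
    field_simp
  · show Real.sqrt (NN x) * (x.2 / Real.sqrt (NN x)) = x.2
    field_simp

private theorem XPT_diag (g : SL) (h01 : g 0 1 = 0) : g 0 0 * g 1 1 = 1 := by
  have h := g.det_coe
  rw [Matrix.det_fin_two, h01, zero_mul, sub_zero] at h
  exact h

private theorem XPT_ga (g : SL) (x : Pt) (h01 : g 0 1 = 0) (h10 : g 1 0 = 0) :
    ga g x = (g 0 0 / g 1 1 * x.1, ‖g 0 0 / g 1 1‖ * x.2) := by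
  have hd := XPT_diag g h01
  have h11 : g 1 1 ≠ 0 := right_ne_zero_of_mul_eq_one hd
  have hn : ‖g 1 1‖ ≠ 0 := norm_ne_zero_iff.2 h11
  have h00 : g 0 0 = (g 1 1)⁻¹ := eq_inv_of_mul_eq_one_left hd
  have hden : den g x = ‖g 1 1‖ ^ 2 := by
    unfold den
    rw [h10, zero_mul, zero_add, norm_zero]
    ring
  unfold ga
  rw [hden, h01, h10, h00]
  apply Prod.ext
  · show (((g 1 1)⁻¹ * x.1 + 0) * conj (0 * x.1 + g 1 1) + (g 1 1)⁻¹ * conj 0 * (x.2 : ℂ) ^ 2) /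
      ((‖g 1 1‖ ^ 2 : ℝ) : ℂ) = (g 1 1)⁻¹ / g 1 1 * x.1
    have e : ((‖g 1 1‖ ^ 2 : ℝ) : ℂ) = g 1 1 * conj (g 1 1) := by
      rw [Complex.mul_conj, Complex.normSq_eq_norm_sq]
    have hc : conj (g 1 1) ≠ 0 := by rwa [Ne, map_eq_zero]
    rw [e, map_zero, zero_mul, zero_add, mul_zero, zero_mul, add_zero, add_zero]
    field_simp
  · show x.2 / ‖g 1 1‖ ^ 2 = ‖(g 1 1)⁻¹ / g 1 1‖ * x.2
    rw [norm_div, norm_inv]
    field_simp

private theorem XPT_sc (lam q : ℂ) (hq : q ≠ 0) (x : Pt) :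
    TT lam (q * x.1, ‖q‖ * x.2) = TT lam x ∧ rd (q * x.1, ‖q‖ * x.2) = q * rd x := by
  have hn : ‖q‖ ≠ 0 := norm_ne_zero_iff.2 hq
  have hN : NN (q * x.1, ‖q‖ * x.2) = ‖q‖ ^ 2 * NN x := by
    unfold NN
    simp only []
    rw [norm_mul]
    ring
  have hs : Real.sqrt (NN (q * x.1, ‖q‖ * x.2)) = ‖q‖ * Real.sqrt (NN x) := by
    rw [hN, Real.sqrt_mul (by positivity), Real.sqrt_sq (norm_nonneg q)]
  constructor
  · unfold TT
    rw [hs]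
    show ‖q‖ * x.2 / (‖lam‖ * (‖q‖ * Real.sqrt (NN x))) = _
    rw [mul_left_comm, mul_div_mul_left _ _ hn]
  · unfold rd
    rw [hs]
    show q * x.1 * (((‖q‖ * Real.sqrt (NN x)) / ‖q * x.1‖ : ℝ) : ℂ) = _
    rw [norm_mul, mul_div_mul_left _ _ hn, mul_assoc]

private theorem XPT_5 (hCHI : StCHI) (x : Pt) (hx : x ∈ up) (y : Pt) (hy : y ∈ up) :
    cR y ≤ 2 * ch x y * cR x := by
  have htx : 0 < x.2 := hx
  have hty : 0 < y.2 := hy
  have hNx := XPT_NN_pos hx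
  have hNy := XPT_NN_pos hy
  obtain ⟨r, hr⟩ : ∃ r, r = Real.sqrt (NN x) := ⟨_, rfl⟩
  obtain ⟨s, hs⟩ : ∃ s, s = Real.sqrt (NN y) := ⟨_, rfl⟩
  have hr0 : 0 < r := by rw [hr]; exact Real.sqrt_pos.2 hNx
  have hs0 : 0 < s := by rw [hs]; exact Real.sqrt_pos.2 hNy
  have hr2 : r ^ 2 = NN x := by rw [hr]; exact Real.sq_sqrt hNx.le
  have hs2 : s ^ 2 = NN y := by rw [hs]; exact Real.sq_sqrt hNy.le
  have he : ((0 : ℂ), r) ∈ up := hr0
  have e1 : ch x (0, r) = cR x := by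
    unfold ch cR
    rw [← hr]
    show (‖x.1 - 0‖ ^ 2 + x.2 ^ 2 + r ^ 2) / (2 * x.2 * r) = r / x.2
    rw [sub_zero]
    have : ‖x.1‖ ^ 2 + x.2 ^ 2 = r ^ 2 := by rw [hr2]; rfl
    rw [this]
    field_simp
    ring
  have e2 : cR y ≤ ch y (0, r) := by
    unfold ch cR
    rw [← hs]
    show s / y.2 ≤ (‖y.1 - 0‖ ^ 2 + y.2 ^ 2 + r ^ 2) / (2 * y.2 * r)
    rw [sub_zero]
    have : ‖y.1‖ ^ 2 + y.2 ^ 2 = s ^ 2 := by rw [hs2]; rfl
    rw [this, div_le_div_iff₀ hty (by positivity)]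
    have h3 : 0 ≤ (s - r) ^ 2 * y.2 := by positivity
    nlinarith
  have h3 := hCHI.2.2.1 y hy x hx (0, r) he
  rw [e1, (hCHI.1 y hy x hx).2.1] at h3
  exact e2.trans h3

theorem hXPT (_hACT : Pool.Agent.Helper86.QA.StACT) (hCHI : Pool.Agent.Helper86.QA.StCHI) :
    Pool.Agent.Helper88.QT.StXPT := by
  intro lam hl
  have hln : 0 < ‖lam‖ := norm_pos_iff.2 hl
  refine ⟨fun T ξ hT h1 hξ => XPT_1 lam hl T ξ hT h1 hξ, fun x hx => XPT_2 lam hl x hx,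
    fun x hx h0 => XPT_3 lam hl x hx h0, ?_, ?_⟩
  · intro g x hx h01 h10
    have hd := XPT_diag g h01
    have h11 : g 1 1 ≠ 0 := right_ne_zero_of_mul_eq_one hd
    have h00 : g 0 0 ≠ 0 := left_ne_zero_of_mul_eq_one hd
    have hq : g 0 0 / g 1 1 ≠ 0 := div_ne_zero h00 h11
    have hg := XPT_ga g x h01 h10
    obtain ⟨h1, h2⟩ := XPT_sc lam (g 0 0 / g 1 1) hq x
    refine ⟨hg, ?_, ?_, hq, ?_, ?_⟩
    · rw [hg]
      exact h1
    · rw [hg]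
      exact h2
    · intro ξ
      unfold mb
      rw [h01, h10, add_zero, zero_mul, zero_add, mul_div_right_comm]
    · intro T ξ _ _ _
      rw [XPT_ga g _ h01 h10]
      unfold xp
      apply Prod.ext
      · show g 0 0 / g 1 1 * (ξ * _) = g 0 0 / g 1 1 * ξ * _
        rw [mul_assoc]
      · show ‖g 0 0 / g 1 1‖ * (‖ξ‖ * (T * ‖lam‖)) = ‖g 0 0 / g 1 1 * ξ‖ * (T * ‖lam‖)
        rw [norm_mul, mul_assoc]
  · intro x hx y hy
    have h5 := XPT_5 hCHI x hx y hy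
    refine ⟨h5, ?_⟩
    obtain ⟨hx1, -, hx3, hx4, -⟩ := XPT_2 lam hl x hx
    obtain ⟨hy1, -, hy3, hy4, -⟩ := XPT_2 lam hl y hy
    have h6 : cR y * (‖lam‖ * TT lam x * (‖lam‖ * TT lam y)) ≤
        2 * ch x y * cR x * (‖lam‖ * TT lam x * (‖lam‖ * TT lam y)) :=
      mul_le_mul_of_nonneg_right h5 (by positivity)
    have e1 : cR y * (‖lam‖ * TT lam x * (‖lam‖ * TT lam y)) = ‖lam‖ * TT lam x := by
      linear_combination (‖lam‖ * TT lam x) * hy4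
    have e2 : 2 * ch x y * cR x * (‖lam‖ * TT lam x * (‖lam‖ * TT lam y)) =
        ‖lam‖ * (2 * ch x y * TT lam y) := by
      linear_combination (2 * ch x y * ‖lam‖ * TT lam y) * hx4
    rw [e1, e2] at h6
    exact le_of_mul_le_mul_left h6 hln

end Pool.Agent.Helper99.QT
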